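import Pool.Agent.Helper69.WS.M_PW
import Pool.Agent.Helper44.WS.M_TRF
import Pool.Agent.Helper36.WS.M_CNT
import Pool.Agent.Helper24.WS.M_SIE
import Pool.Agent.Helper62.WS.M_TUR

set_option autoImplicit false

namespace Pool.Agent.Results.MP_90c2d5_nt.AlmostAllFields

open Filter Topology Pool.Agent.Helper69.WS

/-- Real quadratic fields, ordered by the size of the fundamental unit: almost all of them have a
Wall-Sun-Sun prime, with an explicit rate. -/
theorem result :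
    -- for `ℚ(√5)` a Wall-Sun-Sun prime is a prime with `L_p ≡ 1 (mod p²)`
    (∀ p : ℕ, p.Prime → (WSS 5 p ↔ Nat.fib (p - 1) + Nat.fib (p + 1) ≡ 1 [MOD p ^ 2])) ∧
    -- there are `2x + O(√x)` real quadratic fields with fundamental unit at most `x`
    ((∀ x : ℝ, (Fam x).Finite) ∧
      ∃ C : ℝ, ∀ x : ℝ, 1 ≤ x → |((Fam x).ncard : ℝ) - 2 * x| ≤ C * Real.sqrt x) ∧
    -- all of them but `O(x / log x)` have a Wall-Sun-Sun prime
    (∃ C : ℝ, ∀ x : ℝ, 2 ≤ x →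
      ({d | d ∈ Fam x ∧ ∀ p, ¬ WSS d p}.ncard : ℝ) ≤ C * (x / Real.log x)) := by
  have hLIF : StLIF := Pool.Agent.Helper36.WS.hLIF
  have hCNT : StCNT := Pool.Agent.Helper36.WS.hCNT hLIF
  obtain ⟨h0, h1, h2, -, -, -⟩ := hTOP (Pool.Agent.Helper44.WS.hTRF hALG) hLIF hCNT
    (Pool.Agent.Helper24.WS.hSIE hCNT) (Pool.Agent.Helper62.WS.hTUR hCNT)
  exact ⟨h0, h1, h2⟩

end Pool.Agent.Results.MP_90c2d5_nt.AlmostAllFields
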