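import Pool.Agent.Helper69.WS.M_PW
import Pool.Agent.Helper44.WS.M_TRF
import Pool.Agent.Helper36.WS.M_CNT
import Pool.Agent.Helper24.WS.M_SIE
import Pool.Agent.Helper62.WS.M_TUR

set_option autoImplicit false

namespace Pool.Agent.Results.MP_90c2d5_nt.JointDistribution

open Filter Topology Pool.Agent.Helper69.WS

/-- Joint equidistribution of the Wall-Sun-Sun quotients of the real quadratic fields (ordered by the size
of the fundamental unit), in every congruence class of the trace and for both norms. -/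
theorem result :
    -- for `ℚ(√5)` a Wall-Sun-Sun prime is a prime with `L_p ≡ 1 (mod p²)`
    (∀ p : ℕ, p.Prime → (WSS 5 p ↔ Nat.fib (p - 1) + Nat.fib (p + 1) ≡ 1 [MOD p ^ 2])) ∧
    (∀ x : ℝ, (Fam x).Finite) ∧
    -- the quotients `(Tr(ε^p) - Tr(ε)) / p` are integers
    (∀ (d : ℕ) (t n : ℤ) (p : ℕ), p.Prime → UTN d t n → lucV t n p ≡ t [ZMOD (p : ℤ)]) ∧
    -- and jointly equidistributed modulo `p`, in every class of `Tr(ε)` and for both norms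
    (∀ (n : ℤ) (M : ℕ) (c : ℤ) (S : Finset ℕ) (a : ℕ → ℤ), (n = 1 ∨ n = -1) → 0 < M →
      (∀ p ∈ S, p.Prime ∧ ¬ p ^ 2 ∣ M) → Tendsto (fun x : ℝ =>
        ({d | d ∈ Fam x ∧ ∃ t : ℤ, UTN d t n ∧ t ≡ c [ZMOD (M : ℤ)] ∧
          ∀ p ∈ S, lucV t n p ≡ t + p * a p [ZMOD (p : ℤ) ^ 2]}.ncard : ℝ)
        / (Fam x).ncard) atTop (𝓝 (1 / (2 * M * ∏ p ∈ S, (p : ℝ))))) := by
  have hLIF : StLIF := Pool.Agent.Helper36.WS.hLIF
  have hCNT : StCNT := Pool.Agent.Helper36.WS.hCNT hLIF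
  obtain ⟨h0, ⟨h1, -⟩, -, -, h4, h5⟩ := hTOP (Pool.Agent.Helper44.WS.hTRF hALG) hLIF hCNT
    (Pool.Agent.Helper24.WS.hSIE hCNT) (Pool.Agent.Helper62.WS.hTUR hCNT)
  exact ⟨h0, h1, h4, h5⟩

end Pool.Agent.Results.MP_90c2d5_nt.JointDistribution
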