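import Pool.Agent.Helper69.WS.M_PW
import Pool.Agent.Helper44.WS.M_TRF
import Pool.Agent.Helper36.WS.M_CNT
import Pool.Agent.Helper24.WS.M_SIE
import Pool.Agent.Helper62.WS.M_TUR

set_option autoImplicit false

namespace Pool.Agent.Results.MP_90c2d5_nt.NormalOrder

open Filter Topology Pool.Agent.Helper69.WS

/-- The normal order of the number of Wall-Sun-Sun primes of a real quadratic field (fields ordered by the
size of the fundamental unit) is `log log`. -/
theorem result :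
    -- for `ℚ(√5)` a Wall-Sun-Sun prime is a prime with `L_p ≡ 1 (mod p²)`
    (∀ p : ℕ, p.Prime → (WSS 5 p ↔ Nat.fib (p - 1) + Nat.fib (p + 1) ≡ 1 [MOD p ^ 2])) ∧
    -- the families are finite, and asymptotically of size `2x`
    (∀ x : ℝ, (Fam x).Finite) ∧
    Tendsto (fun x : ℝ => ((Fam x).ncard : ℝ) / (2 * x)) atTop (𝓝 1) ∧
    -- for almost all fields the number of Wall-Sun-Sun primes up to `x^(1/5)` is `~ log log x`
    (∀ δ : ℝ, 0 < δ → Tendsto (fun x : ℝ =>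
      ({d | d ∈ Fam x ∧ δ * Real.log (Real.log x)
        < |(nW (x ^ ((1 : ℝ) / 5)) d : ℝ) - Real.log (Real.log x)|}.ncard : ℝ)
        / (Fam x).ncard) atTop (𝓝 0)) := by
  have hLIF : StLIF := Pool.Agent.Helper36.WS.hLIF
  have hCNT : StCNT := Pool.Agent.Helper36.WS.hCNT hLIF
  obtain ⟨h0, ⟨h1, C, hC⟩, -, h3, -, -⟩ := hTOP (Pool.Agent.Helper44.WS.hTRF hALG) hLIF hCNT
    (Pool.Agent.Helper24.WS.hSIE hCNT) (Pool.Agent.Helper62.WS.hTUR hCNT)
  refine ⟨h0, h1, ?_, h3⟩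
  have h4 : Tendsto (fun x : ℝ => C / 2 * (Real.sqrt x)⁻¹) atTop (𝓝 0) := by
    have h5 : Tendsto (fun x : ℝ => (Real.sqrt x)⁻¹) atTop (𝓝 0) :=
      Real.tendsto_sqrt_atTop.inv_tendsto_atTop
    simpa using h5.const_mul (C / 2)
  rw [tendsto_iff_norm_sub_tendsto_zero]
  refine squeeze_zero' (Eventually.of_forall fun x => norm_nonneg _) ?_ h4
  filter_upwards [eventually_ge_atTop (1 : ℝ)] with x hx
  have hx0 : (0 : ℝ) < x := by linarith
  have hs : Real.sqrt x * Real.sqrt x = x := Real.mul_self_sqrt hx0.le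
  have hs0 : 0 < Real.sqrt x := Real.sqrt_pos.2 hx0
  have h5 : ((Fam x).ncard : ℝ) / (2 * x) - 1 = (((Fam x).ncard : ℝ) - 2 * x) / (2 * x) := by
    field_simp
  rw [h5, Real.norm_eq_abs, abs_div, abs_of_pos (by linarith : (0 : ℝ) < 2 * x)]
  rw [div_le_iff₀ (by linarith)]
  refine (hC x hx).trans (le_of_eq ?_)
  have h6 : C / 2 * (Real.sqrt x)⁻¹ * (2 * x) = C * ((Real.sqrt x)⁻¹ * x) := by ring
  rw [h6]
  congr 1
  rw [eq_comm, inv_mul_eq_div, div_eq_iff hs0.ne']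
  exact hs.symm

end Pool.Agent.Results.MP_90c2d5_nt.NormalOrder
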